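import Mathlib

set_option autoImplicit false

namespace Pool.Agent.LibMPf4dda6al

open unitInterval

/-! ### Thompson's group `F` -/

/-- A real number is dyadic rational if it has the form `a / 2 ^ m` with `a` an integer. -/
def IsDyadic (x : ℝ) : Prop := ∃ (a : ℤ) (m : ℕ), x = a / 2 ^ m

/-- An increasing bijection `f` of `[0,1]` is piecewise linear with finitely many breakpoints,
all of them dyadic rationals, and with all slopes integer powers of two: there is a finite set `B`
of dyadic rationals of `[0,1]` such that on every interval `[x,y]` with no point of `B` strictly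
inside, `f` is affine with slope `2 ^ k` for some integer `k`. -/
def IsPLDyadic (f : I ≃o I) : Prop :=
  ∃ B : Finset I, (∀ b ∈ B, IsDyadic (b : ℝ)) ∧
    ∀ x y : I, x ≤ y → (∀ b ∈ B, ¬ (x < b ∧ b < y)) →
      ∃ k : ℤ, ∀ z : I, x ≤ z → z ≤ y → (f z : ℝ) = f x + (2 : ℝ) ^ k * ((z : ℝ) - x)

theorem IsDyadic.add {x y : ℝ} (hx : IsDyadic x) (hy : IsDyadic y) : IsDyadic (x + y) := by
  obtain ⟨a, m, rfl⟩ := hx
  obtain ⟨b, n, rfl⟩ := hy
  refine ⟨a * 2 ^ n + b * 2 ^ m, m + n, ?_⟩
  push_cast
  field_simp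
  ring

theorem IsDyadic.neg {x : ℝ} (hx : IsDyadic x) : IsDyadic (-x) := by
  obtain ⟨a, m, rfl⟩ := hx
  exact ⟨-a, m, by push_cast; ring⟩

theorem IsDyadic.sub {x y : ℝ} (hx : IsDyadic x) (hy : IsDyadic y) : IsDyadic (x - y) := by
  rw [sub_eq_add_neg]; exact hx.add hy.neg

theorem IsDyadic.mul {x y : ℝ} (hx : IsDyadic x) (hy : IsDyadic y) : IsDyadic (x * y) := by
  obtain ⟨a, m, rfl⟩ := hx
  obtain ⟨b, n, rfl⟩ := hy
  refine ⟨a * b, m + n, ?_⟩
  push_cast
  field_simp
  ring

theorem isDyadic_zpow (k : ℤ) : IsDyadic ((2 : ℝ) ^ k) := by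
  obtain ⟨n, rfl | rfl⟩ := k.eq_nat_or_neg
  · exact ⟨2 ^ n, 0, by push_cast; simp⟩
  · exact ⟨1, n, by simp⟩

theorem isDyadic_zero : IsDyadic 0 := ⟨0, 0, by simp⟩

/-- Elements of `F` map dyadic points to dyadic points. -/
theorem IsPLDyadic.map_dyadic {f : I ≃o I} (hf : IsPLDyadic f) (x : I) (hx : IsDyadic (x : ℝ)) :
    IsDyadic (f x : ℝ) := by
  classical
  obtain ⟨B, hB, hfB⟩ := hf
  have key : ∀ n : ℕ, ∀ x : I, IsDyadic (x : ℝ) → (B.filter (fun b => b < x)).card = n →
      IsDyadic (f x : ℝ) := by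
    intro n
    induction n using Nat.strong_induction_on with
    | _ n ih =>
      intro x hx hn
      by_cases hne : (B.filter (fun b => b < x)).Nonempty
      · set b := (B.filter (fun b => b < x)).max' hne with hb
        have hbm := (B.filter (fun b => b < x)).max'_mem hne
        rw [← hb, Finset.mem_filter] at hbm
        obtain ⟨hbB, hbx⟩ := hbm
        obtain ⟨k, hk⟩ := hfB b x hbx.le (by
          rintro c hc ⟨h1, h2⟩
          have h3 : c ≤ b := Finset.le_max' _ c (Finset.mem_filter.mpr ⟨hc, h2⟩)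
          exact absurd h1 (not_lt.mpr h3))
        rw [hk x hbx.le le_rfl]
        have hlt : (B.filter (fun c => c < b)).card < n := by
          rw [← hn]
          apply Finset.card_lt_card
          refine ⟨?_, ?_⟩
          · intro c hc
            rw [Finset.mem_filter] at hc ⊢
            exact ⟨hc.1, hc.2.trans hbx⟩
          · intro h
            have := h (Finset.mem_filter.mpr ⟨hbB, hbx⟩)
            rw [Finset.mem_filter] at this
            exact lt_irrefl _ this.2
        exact (ih _ hlt b (hB b hbB) rfl).add ((isDyadic_zpow k).mul (hx.sub (hB b hbB)))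
      · obtain ⟨k, hk⟩ := hfB 0 x (unitInterval.nonneg x) (by
          rintro c hc ⟨_, h2⟩
          exact hne ⟨c, Finset.mem_filter.mpr ⟨hc, h2⟩⟩)
        rw [hk x (unitInterval.nonneg x) le_rfl]
        have h0 : f 0 = 0 := f.map_bot
        rw [h0]
        exact isDyadic_zero.add ((isDyadic_zpow k).mul (hx.sub isDyadic_zero))
  exact key _ x hx rfl

theorem IsPLDyadic.one : IsPLDyadic (1 : I ≃o I) :=
  ⟨∅, by simp, fun x y _ _ => ⟨0, fun z _ _ => by simp⟩⟩

theorem IsPLDyadic.inv {f : I ≃o I} (hf : IsPLDyadic f) : IsPLDyadic f⁻¹ := by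
  classical
  have hf' := hf
  obtain ⟨B, hB, hfB⟩ := hf
  refine ⟨B.image f, ?_, ?_⟩
  · intro b hb
    obtain ⟨c, hc, rfl⟩ := Finset.mem_image.mp hb
    exact hf'.map_dyadic c (hB c hc)
  · intro x y hxy hno
    have e1 : ∀ u : I, f (f⁻¹ u) = u := fun u => RelIso.apply_inv_self f u
    have hmono : ∀ u v : I, f⁻¹ u ≤ f⁻¹ v ↔ u ≤ v := fun u v => (f⁻¹ : I ≃o I).le_iff_le
    obtain ⟨k, hk⟩ := hfB (f⁻¹ x) (f⁻¹ y) ((hmono _ _).mpr hxy) (by
      rintro b hb ⟨h1, h2⟩
      apply hno (f b) (Finset.mem_image_of_mem f hb)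
      constructor
      · rw [← e1 x]; exact f.lt_iff_lt.mpr h1
      · rw [← e1 y]; exact f.lt_iff_lt.mpr h2)
    refine ⟨-k, ?_⟩
    intro z hxz hzy
    have h3 := hk (f⁻¹ z) ((hmono _ _).mpr hxz) ((hmono _ _).mpr hzy)
    rw [e1, e1] at h3
    rw [h3, zpow_neg]
    have : (2 : ℝ) ^ k ≠ 0 := zpow_ne_zero _ (by norm_num)
    field_simp
    ring

theorem IsPLDyadic.mul {f g : I ≃o I} (hf : IsPLDyadic f) (hg : IsPLDyadic g) :
    IsPLDyadic (f * g) := by
  classical
  have hgi := hg.inv
  obtain ⟨B, hB, hfB⟩ := hf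
  obtain ⟨C, hC, hgC⟩ := hg
  refine ⟨C ∪ B.image (g⁻¹ : I ≃o I), ?_, ?_⟩
  · intro b hb
    rcases Finset.mem_union.mp hb with hb | hb
    · exact hC b hb
    · obtain ⟨c, hc, rfl⟩ := Finset.mem_image.mp hb
      exact hgi.map_dyadic c (hB c hc)
  · intro x y hxy hno
    have e1 : ∀ u : I, g (g⁻¹ u) = u := fun u => RelIso.apply_inv_self g u
    obtain ⟨k, hk⟩ := hgC x y hxy (fun b hb => hno b (Finset.mem_union_left _ hb))
    obtain ⟨l, hl⟩ := hfB (g x) (g y) (g.le_iff_le.mpr hxy) (by
      rintro b hb ⟨h1, h2⟩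
      apply hno (g⁻¹ b) (Finset.mem_union_right _ (Finset.mem_image_of_mem _ hb))
      constructor
      · rw [← g.lt_iff_lt, e1]; exact h1
      · rw [← g.lt_iff_lt, e1]; exact h2)
    refine ⟨l + k, ?_⟩
    intro z hxz hzy
    have h3 := hl (g z) (g.le_iff_le.mpr hxz) (g.le_iff_le.mpr hzy)
    have h4 := hk z hxz hzy
    rw [RelIso.mul_apply, RelIso.mul_apply, h3, h4, zpow_add₀ (by norm_num)]
    ring

/-- Thompson's group `F`, as the group of all piecewise linear increasing bijections of `[0,1]`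
with finitely many breakpoints, all dyadic, and slopes integer powers of two; the product `f * g`
is the composition `f ∘ g`. -/
def thompsonF : Subgroup (I ≃o I) where
  carrier := {f | IsPLDyadic f}
  mul_mem' := IsPLDyadic.mul
  one_mem' := IsPLDyadic.one
  inv_mem' := IsPLDyadic.inv

/-! ### Schreier graphs -/

section Graph

variable {G : Type} [Group G]

/-- The vertices of the Schreier graph `Γ(G,H)`: the right cosets `Hg`. -/
abbrev Vert (H : Subgroup G) : Type := Quotient (QuotientGroup.rightRel H)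

/-- The right coset `Hg` as a vertex of the Schreier graph. -/
def coset (H : Subgroup G) (g : G) : Vert H := Quotient.mk (QuotientGroup.rightRel H) g

/-- There is an edge labelled `s` from `v` to `w`: for some `g` one has `v = Hg` and `w = Hgs`. -/
def Edge (H : Subgroup G) (s : G) (v w : Vert H) : Prop :=
  ∃ g : G, v = coset H g ∧ w = coset H (g * s)

/-- The ball of radius `n` about `v` in the Schreier graph of `H` for the generating set `S`, for
the graph distance ignoring orientation: the radius `n + 1` ball consists of the radius `n` ball and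
all vertices joined to it by an edge (in either direction) labelled by an element of `S`. -/
def ball (S : Set G) (H : Subgroup G) (v : Vert H) : ℕ → Set (Vert H)
  | 0 => {v}
  | n + 1 => ball S H v n ∪
      {w | ∃ u ∈ ball S H v n, ∃ s ∈ S, Edge H s u w ∨ Edge H s w u}

/-- The balls of radius `n` about `v` in `Γ(G,H)` and about `v'` in `Γ(G,H')` are isomorphic as
rooted labelled graphs. -/
def BallIso (S : Set G) (n : ℕ) (H : Subgroup G) (v : Vert H) (H' : Subgroup G) (v' : Vert H') :
    Prop :=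
  ∃ e : ball S H v n ≃ ball S H' v' n,
    (∀ x : ball S H v n, x.1 = v → (e x).1 = v') ∧
    ∀ x y : ball S H v n, ∀ s ∈ S, Edge H s x.1 y.1 ↔ Edge H' s (e x).1 (e y).1

/-- The vertex `v` is a copy of the Cayley ball `B_G(n)` in the ball of radius `R` about the root of
the Schreier graph `Γ(G,H)`: the ball of radius `n` about `v` is contained in the ball of radius `R`
about the root `H`, and is isomorphic, as a rooted labelled graph, to the ball of radius `n` about
the identity in the Cayley graph `Γ(G,{1})`. -/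
def IsCopy (S : Set G) (H : Subgroup G) (n R : ℕ) (v : Vert H) : Prop :=
  ball S H v n ⊆ ball S H (coset H 1) R ∧ BallIso S n H v ⊥ (coset ⊥ 1)

/-- `H` is non-confined: there is no finite set `P` of nontrivial elements which meets every
conjugate of `H`. -/
def NonConfined (H : Subgroup G) : Prop :=
  ∀ P : Finset G, (1 : G) ∉ P → ∃ g : G, ∀ h ∈ H, g * h * g⁻¹ ∉ P

end Graph

end Pool.Agent.LibMPf4dda6al
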