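import Pool.Agent.Lib_MP_f4dda6_al.Defs

set_option autoImplicit false

namespace Pool.Agent.LibMPf4dda6al

open unitInterval

/-- The basic bump: identity outside `[a, a+4l]`, slopes `2, 1, 1/2` inside. -/
noncomputable def xf (a l t : ℝ) : ℝ := max t (min (2 * t - a) (min (t + l) ((t + a + 4 * l) / 2)))

/-- The inverse of the basic bump. -/
noncomputable def yf (a l t : ℝ) : ℝ := min t (max ((t + a) / 2) (max (t - l) (2 * t - a - 4 * l)))

section
variable {a l t : ℝ}

theorem xf1 (hl : 0 < l) (h : t ≤ a) : xf a l t = t := by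
  unfold xf
  rw [max_eq_left]
  exact (min_le_left _ _).trans (by linarith)

theorem xf2 (hl : 0 < l) (h : a ≤ t) (h' : t ≤ a + l) : xf a l t = 2 * t - a := by
  unfold xf
  rw [min_eq_left, max_eq_right]
  · linarith
  · apply le_min <;> linarith

theorem xf3 (hl : 0 < l) (h : a + l ≤ t) (h' : t ≤ a + 2 * l) : xf a l t = t + l := by
  unfold xf
  rw [min_eq_left (b := (t + a + 4 * l) / 2), min_eq_right, max_eq_right]
  all_goals linarith

theorem xf4 (hl : 0 < l) (h : a + 2 * l ≤ t) (h' : t ≤ a + 4 * l) :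
    xf a l t = (t + a + 4 * l) / 2 := by
  unfold xf
  rw [min_eq_right (b := (t + a + 4 * l) / 2), min_eq_right, max_eq_right]
  all_goals linarith

theorem xf5 (hl : 0 < l) (h : a + 4 * l ≤ t) : xf a l t = t := by
  unfold xf
  rw [max_eq_left]
  exact (min_le_right _ _).trans ((min_le_right _ _).trans (by linarith))

theorem yf1 (hl : 0 < l) (h : t ≤ a) : yf a l t = t := by
  unfold yf
  rw [min_eq_left]
  exact le_trans (by linarith) (le_max_left _ _)

theorem yf2 (hl : 0 < l) (h : a ≤ t) (h' : t ≤ a + 2 * l) : yf a l t = (t + a) / 2 := by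
  unfold yf
  rw [max_eq_left, min_eq_right]
  · linarith
  · apply max_le <;> linarith

theorem yf3 (hl : 0 < l) (h : a + 2 * l ≤ t) (h' : t ≤ a + 3 * l) : yf a l t = t - l := by
  unfold yf
  rw [max_eq_left (b := 2 * t - a - 4 * l), max_eq_right, min_eq_right]
  all_goals linarith

theorem yf4 (hl : 0 < l) (h : a + 3 * l ≤ t) (h' : t ≤ a + 4 * l) :
    yf a l t = 2 * t - a - 4 * l := by
  unfold yf
  rw [max_eq_right (b := 2 * t - a - 4 * l), max_eq_right, min_eq_right]
  all_goals linarith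

theorem yf5 (hl : 0 < l) (h : a + 4 * l ≤ t) : yf a l t = t := by
  unfold yf
  rw [min_eq_left]
  exact le_trans (by linarith) ((le_max_right _ _).trans (le_max_right _ _))

theorem yf_xf (hl : 0 < l) : yf a l (xf a l t) = t := by
  rcases le_total t a with h1 | h1
  · rw [xf1 hl h1, yf1 hl h1]
  rcases le_total t (a + l) with h2 | h2
  · rw [xf2 hl h1 h2, yf2 hl (by linarith) (by linarith)]; ring
  rcases le_total t (a + 2 * l) with h3 | h3
  · rw [xf3 hl h2 h3, yf3 hl (by linarith) (by linarith)]; ring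
  rcases le_total t (a + 4 * l) with h4 | h4
  · rw [xf4 hl h3 h4, yf4 hl (by linarith) (by linarith)]; ring
  · rw [xf5 hl h4, yf5 hl h4]

theorem xf_yf (hl : 0 < l) : xf a l (yf a l t) = t := by
  rcases le_total t a with h1 | h1
  · rw [yf1 hl h1, xf1 hl h1]
  rcases le_total t (a + 2 * l) with h2 | h2
  · rw [yf2 hl h1 h2, xf2 hl (by linarith) (by linarith)]; ring
  rcases le_total t (a + 3 * l) with h3 | h3
  · rw [yf3 hl h2 h3, xf3 hl (by linarith) (by linarith)]; ring
  rcases le_total t (a + 4 * l) with h4 | h4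
  · rw [yf4 hl h3 h4, xf4 hl (by linarith) (by linarith)]; ring
  · rw [yf5 hl h4, xf5 hl h4]

theorem xf_strictMono (a l : ℝ) : StrictMono (xf a l) := by
  intro s t hst
  unfold xf
  apply max_lt_max hst
  apply min_lt_min (by linarith)
  apply min_lt_min <;> linarith

theorem yf_strictMono (a l : ℝ) : StrictMono (yf a l) := by
  intro s t hst
  unfold yf
  apply min_lt_min hst
  apply max_lt_max (by linarith)
  apply max_lt_max <;> linarith

theorem xf_mem (ha : 0 ≤ a) (hl : 0 < l) (h1 : a + 4 * l ≤ 1) (ht : t ∈ Set.Icc (0 : ℝ) 1) :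
    xf a l t ∈ Set.Icc (0 : ℝ) 1 := by
  have h0 : xf a l 0 = 0 := xf1 hl ha
  have h2 : xf a l 1 = 1 := xf5 hl h1
  constructor
  · rw [← h0]; exact (xf_strictMono a l).monotone ht.1
  · rw [← h2]; exact (xf_strictMono a l).monotone ht.2

theorem yf_mem (ha : 0 ≤ a) (hl : 0 < l) (h1 : a + 4 * l ≤ 1) (ht : t ∈ Set.Icc (0 : ℝ) 1) :
    yf a l t ∈ Set.Icc (0 : ℝ) 1 := by
  have h0 : yf a l 0 = 0 := yf1 hl ha
  have h2 : yf a l 1 = 1 := yf5 hl h1
  constructor
  · rw [← h0]; exact (yf_strictMono a l).monotone ht.1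
  · rw [← h2]; exact (yf_strictMono a l).monotone ht.2

/-- The bump as an increasing bijection of `[0,1]`. -/
noncomputable def xIso (a l : ℝ) (ha : 0 ≤ a) (hl : 0 < l) (h1 : a + 4 * l ≤ 1) : I ≃o I where
  toFun t := ⟨xf a l t, xf_mem ha hl h1 t.2⟩
  invFun t := ⟨yf a l t, yf_mem ha hl h1 t.2⟩
  left_inv t := Subtype.ext (yf_xf hl)
  right_inv t := Subtype.ext (xf_yf hl)
  map_rel_iff' := by
    intro s t
    exact (xf_strictMono a l).le_iff_le

theorem xIso_mem (a l : ℝ) (ha : 0 ≤ a) (hl : 0 < l) (h1 : a + 4 * l ≤ 1) (hda : IsDyadic a)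
    (hdl : IsDyadic l) : xIso a l ha hl h1 ∈ thompsonF := by
  have d2 : IsDyadic 2 := ⟨2, 0, by norm_num⟩
  have d4 : IsDyadic 4 := ⟨4, 0, by norm_num⟩
  let b₁ : I := ⟨a, ha, by linarith⟩
  let b₂ : I := ⟨a + l, by linarith, by linarith⟩
  let b₃ : I := ⟨a + 2 * l, by linarith, by linarith⟩
  let b₄ : I := ⟨a + 4 * l, by linarith, h1⟩
  show IsPLDyadic _
  classical
  refine ⟨{b₁, b₂, b₃, b₄}, ?_, ?_⟩
  · intro b hb
    simp only [Finset.mem_insert, Finset.mem_singleton] at hb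
    rcases hb with rfl | rfl | rfl | rfl
    · exact hda
    · exact hda.add hdl
    · exact hda.add (d2.mul hdl)
    · exact hda.add (d4.mul hdl)
  · intro x y hxy hno
    have g1 := hno b₁ (by simp)
    have g2 := hno b₂ (by simp)
    have g3 := hno b₃ (by simp)
    have g4 := hno b₄ (by simp)
    have hval : ∀ z : I, ((xIso a l ha hl h1 z : I) : ℝ) = xf a l z := fun z => rfl
    have k1 : (a ≤ (x : ℝ)) ∨ ((y : ℝ) ≤ a) := by
      by_contra hc; push Not at hc; exact g1 ⟨hc.1, hc.2⟩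
    have k2 : (a + l ≤ (x : ℝ)) ∨ ((y : ℝ) ≤ a + l) := by
      by_contra hc; push Not at hc; exact g2 ⟨hc.1, hc.2⟩
    have k3 : (a + 2 * l ≤ (x : ℝ)) ∨ ((y : ℝ) ≤ a + 2 * l) := by
      by_contra hc; push Not at hc; exact g3 ⟨hc.1, hc.2⟩
    have k4 : (a + 4 * l ≤ (x : ℝ)) ∨ ((y : ℝ) ≤ a + 4 * l) := by
      by_contra hc; push Not at hc; exact g4 ⟨hc.1, hc.2⟩
    have hxy' : (x : ℝ) ≤ y := hxy
    rcases k1 with k1 | k1
    swap
    · refine ⟨0, fun z hxz hzy => ?_⟩
      have e1 : (x : ℝ) ≤ z := hxz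
      have e2 : (z : ℝ) ≤ y := hzy
      rw [hval, hval, xf1 hl (by linarith), xf1 hl (by linarith)]; simp
    rcases k2 with k2 | k2
    swap
    · refine ⟨1, fun z hxz hzy => ?_⟩
      have e1 : (x : ℝ) ≤ z := hxz
      have e2 : (z : ℝ) ≤ y := hzy
      rw [hval, hval, xf2 hl (by linarith) (by linarith), xf2 hl (by linarith) (by linarith)]
      rw [zpow_one]; ring
    rcases k3 with k3 | k3
    swap
    · refine ⟨0, fun z hxz hzy => ?_⟩
      have e1 : (x : ℝ) ≤ z := hxz
      have e2 : (z : ℝ) ≤ y := hzy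
      rw [hval, hval, xf3 hl (by linarith) (by linarith), xf3 hl (by linarith) (by linarith)]
      rw [zpow_zero]; ring
    rcases k4 with k4 | k4
    swap
    · refine ⟨-1, fun z hxz hzy => ?_⟩
      have e1 : (x : ℝ) ≤ z := hxz
      have e2 : (z : ℝ) ≤ y := hzy
      rw [hval, hval, xf4 hl (by linarith) (by linarith), xf4 hl (by linarith) (by linarith)]
      rw [zpow_neg_one]; ring
    · refine ⟨0, fun z hxz hzy => ?_⟩
      have e1 : (x : ℝ) ≤ z := hxz
      have e2 : (z : ℝ) ≤ y := hzy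
      rw [hval, hval, xf5 hl (by linarith), xf5 hl (by linarith)]; simp

/-- The bump as an element of `F`. -/
noncomputable def X (a l : ℝ) (ha : 0 ≤ a) (hl : 0 < l) (h1 : a + 4 * l ≤ 1) (hda : IsDyadic a)
    (hdl : IsDyadic l) : thompsonF :=
  ⟨xIso a l ha hl h1, xIso_mem a l ha hl h1 hda hdl⟩

end

end Pool.Agent.LibMPf4dda6al
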