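import Pool.Agent.Lib_MP_f4dda6_al.Defs

set_option autoImplicit false

namespace Pool.Agent.LibMPf4dda6al

open Pointwise

variable {G : Type} [Group G]

/-- generators, their inverses, and the identity -/
def gens (S : Set G) : Set G := S ∪ S⁻¹ ∪ {1}

theorem one_mem_gens (S : Set G) : (1 : G) ∈ gens S := Or.inr rfl

theorem gens_inv (S : Set G) : (gens S)⁻¹ = gens S := by
  unfold gens
  rw [Set.union_inv, Set.union_inv, inv_inv, Set.inv_singleton, inv_one, Set.union_comm S⁻¹ S]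

theorem pow_mono (S : Set G) {m n : ℕ} (h : m ≤ n) : (gens S) ^ m ⊆ (gens S) ^ n :=
  Set.pow_subset_pow_right (one_mem_gens S) h

theorem inv_mem_pow (S : Set G) {n : ℕ} {g : G} (h : g ∈ (gens S) ^ n) : g⁻¹ ∈ (gens S) ^ n := by
  have h1 : ((gens S) ^ n)⁻¹ = (gens S) ^ n := by
    rw [← inv_pow, gens_inv]
  rw [← h1, Set.mem_inv, inv_inv]
  exact h

theorem exists_mem_pow (S : Set G) (hS : Subgroup.closure S = ⊤) (g : G) :
    ∃ n, g ∈ (gens S) ^ n := by
  have hg : g ∈ Subgroup.closure S := by rw [hS]; trivial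
  induction hg using Subgroup.closure_induction with
  | mem x hx => exact ⟨1, by rw [pow_one]; exact Or.inl (Or.inl hx)⟩
  | one => exact ⟨0, by simp⟩
  | mul x y _ _ hx hy =>
    obtain ⟨m, hm⟩ := hx
    obtain ⟨n, hn⟩ := hy
    exact ⟨m + n, by rw [pow_add]; exact Set.mul_mem_mul hm hn⟩
  | inv x _ hx =>
    obtain ⟨m, hm⟩ := hx
    exact ⟨m, inv_mem_pow S hm⟩

theorem coset_eq_iff (H : Subgroup G) (x y : G) : coset H x = coset H y ↔ y * x⁻¹ ∈ H := by
  unfold coset
  rw [Quotient.eq]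
  exact QuotientGroup.rightRel_apply

theorem edge_right (H : Subgroup G) (s x : G) (w : Vert H) (h : Edge H s (coset H x) w) :
    w = coset H (x * s) := by
  obtain ⟨g, h1, rfl⟩ := h
  rw [coset_eq_iff] at h1 ⊢
  have : x * s * (g * s)⁻¹ = (g * x⁻¹)⁻¹ := by group
  rw [this]
  exact H.inv_mem h1

theorem edge_left (H : Subgroup G) (s x : G) (u : Vert H) (h : Edge H s u (coset H x)) :
    u = coset H (x * s⁻¹) := by
  obtain ⟨g, rfl, h1⟩ := h
  rw [coset_eq_iff] at h1 ⊢
  have : x * s⁻¹ * g⁻¹ = (g * s * x⁻¹)⁻¹ := by group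
  rw [this]
  exact H.inv_mem h1

theorem edge_mk (H : Subgroup G) (s x : G) : Edge H s (coset H x) (coset H (x * s)) :=
  ⟨x, rfl, rfl⟩

theorem edge_mk_inv (H : Subgroup G) (s x : G) : Edge H s (coset H (x * s⁻¹)) (coset H x) :=
  ⟨x * s⁻¹, rfl, by simp⟩

theorem mem_ball_of_mem_pow (S : Set G) (H : Subgroup G) (g₀ : G) (n : ℕ) (a : G)
    (ha : a ∈ (gens S) ^ n) : coset H (g₀ * a) ∈ ball S H (coset H g₀) n := by
  induction n generalizing a with
  | zero =>
    simp only [pow_zero, Set.mem_one] at ha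
    rw [ha, mul_one]; rfl
  | succ n ih =>
    rw [pow_succ] at ha
    obtain ⟨b, hb, t, ht, rfl⟩ := Set.mem_mul.mp ha
    rcases ht with (ht | ht) | ht
    · right
      refine ⟨_, ih b hb, t, ht, Or.inl ?_⟩
      rw [← mul_assoc]; exact edge_mk H t _
    · right
      refine ⟨_, ih b hb, t⁻¹, ht, Or.inr ?_⟩
      have := edge_mk_inv H t⁻¹ (g₀ * b)
      rwa [inv_inv, mul_assoc] at this
    · left
      rw [Set.mem_singleton_iff.mp ht, mul_one]
      exact ih b hb

theorem mem_pow_of_mem_ball (S : Set G) (H : Subgroup G) (g₀ : G) (n : ℕ) (v : Vert H)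
    (hv : v ∈ ball S H (coset H g₀) n) : ∃ a ∈ (gens S) ^ n, v = coset H (g₀ * a) := by
  induction n generalizing v with
  | zero =>
    refine ⟨1, by simp, ?_⟩
    rw [mul_one]; exact hv
  | succ n ih =>
    rcases hv with hv | ⟨u, hu, s, hs, h | h⟩
    · obtain ⟨a, ha, rfl⟩ := ih v hv
      exact ⟨a, pow_mono S (Nat.le_succ n) ha, rfl⟩
    · obtain ⟨a, ha, rfl⟩ := ih u hu
      refine ⟨a * s, ?_, ?_⟩
      · rw [pow_succ]; exact Set.mul_mem_mul ha (Or.inl (Or.inl hs))
      · rw [← mul_assoc]; exact edge_right H s _ v h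
    · obtain ⟨a, ha, rfl⟩ := ih u hu
      refine ⟨a * s⁻¹, ?_, ?_⟩
      · rw [pow_succ]
        exact Set.mul_mem_mul ha (Or.inl (Or.inr (Set.inv_mem_inv.mpr hs)))
      · rw [← mul_assoc]; exact edge_left H s _ v h

theorem ball_mono (S : Set G) (H : Subgroup G) (v : Vert H) {m n : ℕ} (h : m ≤ n) :
    ball S H v m ⊆ ball S H v n := by
  induction h with
  | refl => exact subset_rfl
  | step _ ih => exact ih.trans (fun x hx => Or.inl hx)

theorem center_mem_ball (S : Set G) (H : Subgroup G) (v : Vert H) (n : ℕ) : v ∈ ball S H v n :=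
  ball_mono S H v (Nat.zero_le n) rfl

/-- A copy of the Cayley ball of radius `n` has no short loops at its centre. -/
theorem no_short_loop (S : Set G) (H : Subgroup G) (n : ℕ) (g₀ : G)
    (hiso : BallIso S n H (coset H g₀) ⊥ (coset ⊥ 1)) (h : G) (hh : h ∈ (gens S) ^ (2 * n))
    (hH : g₀ * h * g₀⁻¹ ∈ H) : h = 1 := by
  obtain ⟨e, he1, he2⟩ := hiso
  have hroot : e ⟨coset H g₀, center_mem_ball S H _ n⟩
      = ⟨coset ⊥ 1, center_mem_ball S ⊥ _ n⟩ := Subtype.ext (he1 _ rfl)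
  have hmemB : ∀ a ∈ (gens S) ^ n, coset (⊥ : Subgroup G) a ∈ ball S ⊥ (coset ⊥ 1) n := by
    intro a ha
    have := mem_ball_of_mem_pow S ⊥ 1 n a ha
    rwa [one_mul] at this
  have hmemH : ∀ a ∈ (gens S) ^ n, coset H (g₀ * a) ∈ ball S H (coset H g₀) n :=
    fun a ha => mem_ball_of_mem_pow S H g₀ n a ha
  -- the isomorphism is the obvious one
  have key : ∀ m ≤ n, ∀ a (ha : a ∈ (gens S) ^ n) (_ : a ∈ (gens S) ^ m),
      (e ⟨coset H (g₀ * a), hmemH a ha⟩).1 = coset ⊥ a := by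
    intro m
    induction m with
    | zero =>
      intro _ a ha h0
      simp only [pow_zero, Set.mem_one] at h0
      subst h0
      have h1 : (⟨coset H (g₀ * 1), hmemH 1 ha⟩ : ball S H (coset H g₀) n)
          = ⟨coset H g₀, center_mem_ball S H _ n⟩ := Subtype.ext (by simp)
      rw [h1, hroot]
    | succ m ih =>
      intro hm a ha h0
      rw [pow_succ] at h0
      obtain ⟨b, hb, t, ht, rfl⟩ := Set.mem_mul.mp h0
      have hbn : b ∈ (gens S) ^ n := pow_mono S (by omega) hb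
      have ihb := ih (by omega) b hbn hb
      rcases ht with (ht | ht) | ht
      · have h1 : Edge H t (coset H (g₀ * b)) (coset H (g₀ * (b * t))) := by
          rw [← mul_assoc]; exact edge_mk H t _
        have h2 := (he2 ⟨_, hmemH b hbn⟩ ⟨_, hmemH (b * t) ha⟩ t ht).mp h1
        rw [ihb] at h2
        exact edge_right ⊥ t b _ h2
      · have h1 : Edge H t⁻¹ (coset H (g₀ * (b * t))) (coset H (g₀ * b)) := by
          have := edge_mk_inv H t⁻¹ (g₀ * b)
          rwa [inv_inv, mul_assoc] at this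
        have h2 := (he2 ⟨_, hmemH (b * t) ha⟩ ⟨_, hmemH b hbn⟩ t⁻¹ ht).mp h1
        rw [ihb] at h2
        have h3 := edge_left ⊥ t⁻¹ b _ h2
        rwa [inv_inv] at h3
      · have h1 : t = 1 := ht
        subst h1
        have h4 : (⟨coset H (g₀ * (b * 1)), hmemH (b * 1) ha⟩ : ball S H (coset H g₀) n)
            = ⟨coset H (g₀ * b), hmemH b hbn⟩ := Subtype.ext (by simp)
        rw [h4, ihb, mul_one]
  rw [two_mul, pow_add] at hh
  obtain ⟨a, ha, c, hc, rfl⟩ := Set.mem_mul.mp hh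
  have hc' := inv_mem_pow S hc
  have h1 := key n le_rfl a ha ha
  have h2 := key n le_rfl c⁻¹ hc' hc'
  have h3 : coset H (g₀ * c⁻¹) = coset H (g₀ * a) := by
    rw [coset_eq_iff]
    have : g₀ * a * (g₀ * c⁻¹)⁻¹ = g₀ * (a * c) * g₀⁻¹ := by group
    rw [this]; exact hH
  have h4 : (⟨coset H (g₀ * a), hmemH a ha⟩ : ball S H (coset H g₀) n)
      = ⟨coset H (g₀ * c⁻¹), hmemH c⁻¹ hc'⟩ := Subtype.ext h3.symm
  rw [h4, h2] at h1
  rw [coset_eq_iff, Subgroup.mem_bot, inv_inv] at h1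
  exact h1

end Pool.Agent.LibMPf4dda6al
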