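import Pool.Agent.Lib_MP_f4dda6_al.Elements
import Pool.Agent.Lib_MP_f4dda6_al.Graph

set_option autoImplicit false

namespace Pool.Agent.LibMPf4dda6al

open unitInterval Pointwise

abbrev F : Type := thompsonF

theorem dy0 : IsDyadic 0 := isDyadic_zero
theorem dy4 : IsDyadic (1 / 4) := ⟨1, 2, by norm_num⟩
theorem dy8 : IsDyadic (1 / 8) := ⟨1, 3, by norm_num⟩
theorem dy16 : IsDyadic (1 / 16) := ⟨1, 4, by norm_num⟩

/-- moves every interior point to the right -/
noncomputable def xr : F := X 0 (1 / 4) (by norm_num) (by norm_num) (by norm_num) dy0 dy4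

noncomputable def pA : F :=
  ((X (1 / 4) (1 / 8) (by norm_num) (by norm_num) (by norm_num) dy4 dy8) ^ 2)⁻¹

noncomputable def pB : F := X 0 (1 / 8) (by norm_num) (by norm_num) (by norm_num) dy0 dy8

noncomputable def ph : F := X (1 / 4) (1 / 16) (by norm_num) (by norm_num) (by norm_num) dy4 dy16

/-- action on points -/
def act (g : F) (t : I) : I := g.1 t

theorem act_one (t : I) : act 1 t = t := rfl
theorem act_mul (g h : F) (t : I) : act (g * h) t = act g (act h t) := rfl
theorem act_inv_act (g : F) (t : I) : act g⁻¹ (act g t) = t := by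
  rw [← act_mul, inv_mul_cancel, act_one]
theorem act_act_inv (g : F) (t : I) : act g (act g⁻¹ t) = t := by
  rw [← act_mul, mul_inv_cancel, act_one]
theorem act_le (g : F) (s t : I) : act g s ≤ act g t ↔ s ≤ t := g.1.le_iff_le
theorem act_lt (g : F) (s t : I) : act g s < act g t ↔ s < t := g.1.lt_iff_lt
theorem act_inj (g : F) {s t : I} (h : act g s = act g t) : s = t := g.1.injective h

theorem act_X (a l : ℝ) (ha : 0 ≤ a) (hl : 0 < l) (h1 : a + 4 * l ≤ 1) (hda : IsDyadic a)
    (hdl : IsDyadic l) (t : I) : ((act (X a l ha hl h1 hda hdl) t : I) : ℝ) = xf a l t := rfl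

theorem act_Xinv (a l : ℝ) (ha : 0 ≤ a) (hl : 0 < l) (h1 : a + 4 * l ≤ 1) (hda : IsDyadic a)
    (hdl : IsDyadic l) (t : I) : ((act (X a l ha hl h1 hda hdl)⁻¹ t : I) : ℝ) = yf a l t := rfl

/-- The interval `[1/4, 1/2]`. -/
def K : Set I := {t | 1 / 4 ≤ (t : ℝ) ∧ (t : ℝ) ≤ 1 / 2}

theorem pA_K (t : I) (ht : t ∈ K) : 1 / 4 ≤ ((act pA t : I) : ℝ) ∧ ((act pA t : I) : ℝ) ≤ 5 / 16 := by
  have h : pA = (X (1 / 4) (1 / 8) (by norm_num) (by norm_num) (by norm_num) dy4 dy8)⁻¹ *
      (X (1 / 4) (1 / 8) (by norm_num) (by norm_num) (by norm_num) dy4 dy8)⁻¹ := by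
    unfold pA; rw [sq, mul_inv_rev]
  obtain ⟨h1, h2⟩ := ht
  rw [h, act_mul, act_Xinv, act_Xinv, yf2 (t := (t : ℝ)) (by norm_num) (by linarith) (by linarith)]
  rw [yf2 (by norm_num) (by linarith) (by linarith)]
  constructor <;> linarith

theorem pB_K (t : I) (ht : t ∈ K) : 3 / 8 ≤ ((act pB t : I) : ℝ) ∧ ((act pB t : I) : ℝ) ≤ 1 / 2 := by
  obtain ⟨h1, h2⟩ := ht
  unfold pB
  rw [act_X, xf4 (by norm_num) (by linarith) (by linarith)]
  constructor <;> linarith

/-- `ph` is supported on `K`. -/
theorem ph_fix (t : I) (ht : t ∉ K) : act ph t = t := by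
  apply Subtype.ext
  unfold ph
  rw [act_X]
  rcases le_total (t : ℝ) (1 / 4) with h | h
  · exact xf1 (by norm_num) h
  · have : 1 / 2 ≤ (t : ℝ) := by
      by_contra hc
      exact ht ⟨h, by linarith⟩
    exact xf5 (by norm_num) (by linarith)

theorem ph_ne_one : ph ≠ 1 := by
  intro h
  have h1 : ((act ph ⟨3 / 8, by norm_num, by norm_num⟩ : I) : ℝ) = 3 / 8 := by
    rw [h, act_one]
  unfold ph at h1
  rw [act_X, xf3 (by norm_num) (by norm_num) (by norm_num)] at h1
  norm_num at h1

/-- the ping-pong words -/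
noncomputable def wd : List Bool → F
  | [] => 1
  | b :: w => (if b then pB else pA) * wd w

theorem wd_K (w : List Bool) (t : I) (ht : t ∈ K) : act (wd w) t ∈ K := by
  induction w with
  | nil => exact ht
  | cons b w ih =>
    rw [wd, act_mul]
    cases b with
    | true =>
      have := pB_K _ ih
      simp only [if_true]
      exact ⟨by linarith [this.1], this.2⟩
    | false =>
      have := pA_K _ ih
      simp only [Bool.false_eq_true, if_false]
      exact ⟨this.1, by linarith [this.2]⟩

theorem wd_disjoint (w w' : List Bool) (hlen : w.length = w'.length) (s t : I) (hs : s ∈ K)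
    (ht : t ∈ K) (h : act (wd w) s = act (wd w') t) : w = w' := by
  induction w generalizing w' with
  | nil =>
    cases w' with
    | nil => rfl
    | cons b w' => simp at hlen
  | cons b w ih =>
    cases w' with
    | nil => simp at hlen
    | cons b' w' =>
      have hlen' : w.length = w'.length := by simpa using hlen
      rw [wd, wd, act_mul, act_mul] at h
      have k1 := wd_K w s hs
      have k2 := wd_K w' t ht
      cases b <;> cases b'
      · rw [ih w' hlen' (act_inj _ h)]
      · exfalso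
        simp only [Bool.false_eq_true, if_false, if_true] at h
        have h1 := pA_K _ k1
        have h2 := pB_K _ k2
        rw [← h] at h2
        linarith [h1.2, h2.1]
      · exfalso
        simp only [Bool.false_eq_true, if_false, if_true] at h
        have h1 := pB_K _ k1
        have h2 := pA_K _ k2
        rw [← h] at h2
        linarith [h1.1, h2.2]
      · rw [ih w' hlen' (act_inj _ h)]

theorem wd_mem_pow (S : Set F) (L : ℕ) (hA : pA ∈ (gens S) ^ L) (hB : pB ∈ (gens S) ^ L)
    (w : List Bool) : wd w ∈ (gens S) ^ (w.length * L) := by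
  induction w with
  | nil => simp [wd]
  | cons b w ih =>
    rw [wd, List.length_cons, add_mul, one_mul, add_comm, pow_add]
    apply Set.mul_mem_mul _ ih
    cases b
    · simpa using hA
    · simpa using hB

/-- The conjugated bump, supported on `wd w '' K`. -/
noncomputable def bump (w : List Bool) : F := wd w * ph * (wd w)⁻¹

theorem bump_ne_one (w : List Bool) : bump w ≠ 1 := by
  intro h
  apply ph_ne_one
  have : ph = (wd w)⁻¹ * bump w * wd w := by unfold bump; group
  rw [this, h]; group

theorem bump_fix (w : List Bool) (t : I) (ht : act (wd w)⁻¹ t ∉ K) : act (bump w) t = t := by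
  unfold bump
  rw [act_mul, act_mul, ph_fix _ ht, act_act_inv]

/-- The element `xr` pushes every nonzero point to `1`. -/
theorem xr_push (t : I) (ht : 0 < t) (τ : I) (hτ : τ < 1) :
    ∀ᶠ m : ℕ in Filter.atTop, τ < act (xr ^ m) t := by
  have ht' : (0 : ℝ) < t := ht
  have hτ' : (τ : ℝ) < 1 := hτ
  set δ : ℝ := min (t : ℝ) (1 / 4) with hδ
  have hδ0 : 0 < δ := lt_min ht' (by norm_num)
  have hδ1 : δ ≤ 1 / 4 := min_le_right _ _
  have hδt : δ ≤ t := min_le_left _ _
  have step : ∀ s : I, (t : ℝ) ≤ s → (t : ℝ) ≤ act xr s ∧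
      1 - ((act xr s : I) : ℝ) ≤ (1 - δ) * (1 - (s : ℝ)) := by
    intro s hs
    have hs1 : (s : ℝ) ≤ 1 := s.2.2
    have hs0 : (0 : ℝ) ≤ s := s.2.1
    unfold xr
    rw [act_X]
    rcases le_total (s : ℝ) (1 / 4) with h1 | h1
    · rw [xf2 (by norm_num) (by linarith) (by linarith)]
      constructor
      · linarith
      · nlinarith
    rcases le_total (s : ℝ) (1 / 2) with h2 | h2
    · rw [xf3 (by norm_num) (by linarith) (by linarith)]
      constructor
      · linarith
      · nlinarith
    · rw [xf4 (by norm_num) (by linarith) (by linarith)]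
      constructor
      · linarith
      · nlinarith
  have main : ∀ m : ℕ, (t : ℝ) ≤ act (xr ^ m) t ∧
      1 - ((act (xr ^ m) t : I) : ℝ) ≤ (1 - δ) ^ m := by
    intro m
    induction m with
    | zero =>
      rw [pow_zero, act_one, pow_zero]
      exact ⟨le_rfl, by linarith⟩
    | succ m ih =>
      rw [pow_succ', act_mul]
      obtain ⟨h1, h2⟩ := step _ ih.1
      refine ⟨h1, h2.trans ?_⟩
      rw [pow_succ']
      exact mul_le_mul_of_nonneg_left ih.2 (by linarith)
  have hlim : Filter.Tendsto (fun m : ℕ => (1 - δ) ^ m) Filter.atTop (nhds 0) :=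
    tendsto_pow_atTop_nhds_zero_of_lt_one (by linarith) (by linarith)
  have hev : ∀ᶠ m : ℕ in Filter.atTop, (1 - δ) ^ m < 1 - (τ : ℝ) :=
    hlim.eventually (gt_mem_nhds (by linarith))
  filter_upwards [hev] with m hm
  show (τ : ℝ) < act (xr ^ m) t
  linarith [(main m).2]

end Pool.Agent.LibMPf4dda6al
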